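import Pool.Agent.Helper41.SQC.Goals

/-!
# MP_bb32d1_al, stage C, packet C1F: `c_1` commutes with the `F_k`
-/

set_option autoImplicit false

namespace Pool.Agent.Helper53.SQC

noncomputable section

open Matrix Pool.Agent.Helper19.SQ Pool.Agent.Helper34.SQ Pool.Agent.Helper41.SQ
  Pool.Agent.Helper4.SQ Pool.Agent.Helper41.SQC

section

variable {R : Type} [Ring R] [Algebra ℂ R]

/-- `T x = q^e x T`. -/
def Wt (q : ℂ) (T : R) (e : ℤ) (x : R) : Prop := T * x = q ^ e • (x * T)

theorem Wt.mul {q : ℂ} (hq : q ≠ 0) {T x y : R} {e f : ℤ} (hx : Wt q T e x) (hy : Wt q T f y) :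
    Wt q T (e + f) (x * y) := by
  unfold Wt at *
  rw [← mul_assoc, hx, smul_mul_assoc, mul_assoc, hy, mul_smul_comm, smul_smul, ← mul_assoc,
    zpow_add₀ hq]

theorem Wt.smul {q : ℂ} {T x : R} {e : ℤ} (c : ℂ) (hx : Wt q T e x) : Wt q T e (c • x) := by
  unfold Wt at *
  rw [mul_smul_comm, hx, smul_mul_assoc, smul_comm]

theorem Wt.zero {q : ℂ} {T : R} {e : ℤ} : Wt q T e (0 : R) := by
  unfold Wt
  rw [mul_zero, zero_mul, smul_zero]

theorem Wt.comm {q : ℂ} {T x : R} (h : T * x = x * T) : Wt q T 0 x := by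
  unfold Wt
  rw [h, zpow_zero, one_smul]

theorem Wt.sum {q : ℂ} {T : R} {e : ℤ} {ι : Type} (s : Finset ι) (x : ι → R)
    (h : ∀ i ∈ s, Wt q T e (x i)) : Wt q T e (∑ i ∈ s, x i) := by
  unfold Wt at *
  rw [Finset.mul_sum, Finset.sum_mul, Finset.smul_sum]
  exact Finset.sum_congr rfl h

theorem Wt.mulT {q : ℂ} (hq : q ≠ 0) {T U x : R} {e f : ℤ} (hx : Wt q T e x) (hy : Wt q U f x) :
    Wt q (T * U) (e + f) x := by
  unfold Wt at *
  rw [mul_assoc, hy, mul_smul_comm, ← mul_assoc, hx, smul_mul_assoc, smul_smul, mul_assoc,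
    zpow_add₀ hq, mul_comm (q ^ f)]

end

theorem wtY {R : Type} [Ring R] [Algebra ℂ R] {N l : ℕ} {q : ℂ} {t t' E F K : ℕ → R}
    (hP : Par N l q) (h : GlT N l q t t' E F K) (hK : S_KWT) (p a c : ℕ) :
    Wt q (K p) (-ew p a c) (Yent q F K a c) ∧ Wt q (ki l K p) (ew p a c) (Yent q F K a c) := by
  have hq : q ≠ 0 := hP.prim.ne_zero (by have := hP.h3; omega)
  have h0 := hK R N l q t t' E F K hP h
  have hKc : ∀ r, K p * K r = K r * K p := fun r => h.K_comm p r
  have hkc : ∀ r, ki l K p * K r = K r * ki l K p := by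
    intro r
    exact ((h0 r 0 1 (by omega)).2.2.2 p).symm
  unfold Yent
  by_cases hac : a = c
  · subst hac
    have hz : ew p a a = 0 := by
      unfold ew
      simp
    rw [if_pos rfl, hz, neg_zero]
    exact ⟨Wt.comm (hKc a), Wt.comm (hkc a)⟩
  · rw [if_neg hac]
    by_cases hlt : a < c
    · rw [if_pos hlt]
      have h1 := (h0 p a c hlt).2.1
      constructor
      · have h2 := Wt.mul hq (Wt.comm (q := q) (hKc a)) (show Wt q (K p) (-ew p a c)
          (rvo q F a c) from h1.1)
        rw [zero_add] at h2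
        exact h2.smul _
      · have h2 := Wt.mul hq (Wt.comm (q := q) (hkc a)) (show Wt q (ki l K p) (ew p a c)
          (rvo q F a c) from h1.2)
        rw [zero_add] at h2
        exact h2.smul _
    · rw [if_neg hlt]
      exact ⟨Wt.zero, Wt.zero⟩

theorem wtL {R : Type} [Ring R] [Algebra ℂ R] {N l : ℕ} {q : ℂ} {t t' E F K : ℕ → R}
    (hP : Par N l q) (h : GlT N l q t t' E F K) (hK : S_KWT) (p c b : ℕ) :
    Wt q (K p) (ew p b c) (Lent q E K c b) ∧ Wt q (ki l K p) (-ew p b c) (Lent q E K c b) := by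
  have hq : q ≠ 0 := hP.prim.ne_zero (by have := hP.h3; omega)
  have h0 := hK R N l q t t' E F K hP h
  have hKc : ∀ r, K p * K r = K r * K p := fun r => h.K_comm p r
  have hkc : ∀ r, ki l K p * K r = K r * ki l K p := by
    intro r
    exact ((h0 r 0 1 (by omega)).2.2.2 p).symm
  unfold Lent
  by_cases hac : c = b
  · subst hac
    have hz : ew p c c = 0 := by
      unfold ew
      simp
    rw [if_pos rfl, hz, neg_zero]
    exact ⟨Wt.comm (hKc c), Wt.comm (hkc c)⟩
  · rw [if_neg hac]
    by_cases hlt : b < c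
    · rw [if_pos hlt]
      have h1 := (h0 p b c hlt).1
      constructor
      · have h2 := Wt.mul hq (show Wt q (K p) (ew p b c) (rv q E b c) from h1.1)
          (Wt.comm (q := q) (hKc c))
        rw [add_zero] at h2
        exact h2.smul _
      · have h2 := Wt.mul hq (show Wt q (ki l K p) (-ew p b c) (rv q E b c) from h1.2)
          (Wt.comm (q := q) (hkc c))
        rw [add_zero] at h2
        exact h2.smul _
    · rw [if_neg hlt]
      exact ⟨Wt.zero, Wt.zero⟩

theorem c_c1f (hL : S_LFT) (hY : S_YFT) (hK : S_KWT) : S_C1F := by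
  intro R _ _ N l q κ κi E F K hP hκ hκi hκκ hG k
  have hq : q ≠ 0 := hP.prim.ne_zero (by have := hP.h3; omega)
  by_cases hk : N ≤ k
  · rw [hG.F_out k hk, mul_zero, zero_mul]
  push Not at hk
  have hLk := hL R N l q κ κi E F K hP hκ hκi hκκ hG k
  have hYk := hY R N l q κ κi E F K hP hκ hκi hκκ hG k
  set Lh : Mat N R := Matrix.of fun a b : Fin (N + 1) => κ a * Lent q E K a b with hLh
  set Yh : Mat N R := Matrix.of fun a b : Fin (N + 1) => κ a * Yent q F K a b with hYh
  set D : Mat N R := dFt N l (fun k => κi k * κ (k + 1)) F K k with hD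
  have hX : (Yh * Lh) * D = D * (Yh * Lh) := by
    rw [Matrix.mul_assoc, hLk, ← Matrix.mul_assoc, hYk, Matrix.mul_assoc]
  set X : Mat N R := Yh * Lh with hXd
  set T0 : R := K (k + 1) * ki l K k with hT0
  set T : R := (κi k * κ (k + 1)) * T0 with hT
  have hXe : ∀ a b : Fin (N + 1), X a b = ∑ c : Fin (N + 1),
      (κ a * κ c) * (Yent q F K a c * Lent q E K c b) := by
    intro a b
    rw [hXd, Matrix.mul_apply]
    refine Finset.sum_congr rfl fun c _ => ?_
    rw [hYh, hLh, Matrix.of_apply, Matrix.of_apply]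
    calc κ a * Yent q F K a c * (κ c * Lent q E K c b)
        = κ a * (Yent q F K a c * κ c) * Lent q E K c b := by
          simp only [mul_assoc]
      _ = κ a * (κ c * Yent q F K a c) * Lent q E K c b := by rw [← hκ c]
      _ = (κ a * κ c) * (Yent q F K a c * Lent q E K c b) := by
          simp only [mul_assoc]
  have hc1 : c1g N q κ E F K = ∑ a : Fin (N + 1), (q⁻¹ ^ (2 * (a : ℕ))) • X a a := by
    unfold c1g
    refine Finset.sum_congr rfl fun a _ => ?_
    rw [hXe a a, Finset.smul_sum]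
  let u : Fin (N + 1) := ⟨k, by omega⟩
  let v : Fin (N + 1) := ⟨k + 1, by omega⟩
  have hDe : ∀ a b : Fin (N + 1), D a b = (if a = b then F k else 0)
      + (if a = v ∧ b = u then T else 0) := by
    intro a b
    rw [hD]
    show (if a = b then F k else 0) + _ = _
    congr 1
    by_cases hab : a = v ∧ b = u
    · rw [if_pos hab, if_pos ⟨congrArg Fin.val hab.1, congrArg Fin.val hab.2⟩]
    · rw [if_neg hab, if_neg]
      rintro ⟨h1, h2⟩
      exact hab ⟨Fin.ext h1, Fin.ext h2⟩
  have hs : ∀ s : Fin (N + 1), X s s * F k + (if s = u then X u v * T else 0)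
      = F k * X s s + (if s = v then T * X u v else 0) := by
    intro s
    have h1 := congrFun (congrFun hX s) s
    rw [Matrix.mul_apply, Matrix.mul_apply] at h1
    have h2 : ∑ j : Fin (N + 1), X s j * D j s = X s s * F k
        + (if s = u then X u v * T else 0) := by
      simp only [hDe, mul_add, Finset.sum_add_distrib]
      congr 1
      · simp only [mul_ite, mul_zero, Finset.sum_ite_eq', Finset.mem_univ, if_true]
      · by_cases hsu : s = u
        · rw [if_pos hsu]
          simp only [hsu, and_true, mul_ite, mul_zero, Finset.sum_ite_eq', Finset.mem_univ,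
            if_true]
        · rw [if_neg hsu]
          refine Finset.sum_eq_zero fun j _ => ?_
          rw [if_neg (fun h => hsu h.2), mul_zero]
    have h3 : ∑ j : Fin (N + 1), D s j * X j s = F k * X s s
        + (if s = v then T * X u v else 0) := by
      simp only [hDe, add_mul, Finset.sum_add_distrib]
      congr 1
      · simp only [ite_mul, zero_mul, Finset.sum_ite_eq, Finset.mem_univ, if_true]
      · by_cases hsv : s = v
        · rw [if_pos hsv]
          simp only [hsv, true_and, ite_mul, zero_mul, Finset.sum_ite_eq', Finset.mem_univ,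
            if_true]
        · rw [if_neg hsv]
          refine Finset.sum_eq_zero fun j _ => ?_
          rw [if_neg (fun h => hsv h.1), zero_mul]
    rw [h2, h3] at h1
    exact h1
  -- weights
  have hw : Wt q T0 2 (X u v) := by
    rw [hXe u v]
    refine Wt.sum _ _ fun c _ => ?_
    have hc0 : Wt q T0 0 (κ u * κ c) := by
      apply Wt.comm
      rw [← mul_assoc, ← hκ u T0, mul_assoc, ← hκ c T0, mul_assoc]
    have y1 := (wtY hP hG hK (k + 1) u c).1
    have y2 := (wtY hP hG hK k u c).2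
    have l1 := (wtL hP hG hK (k + 1) c v).1
    have l2 := (wtL hP hG hK k c v).2
    have yy := Wt.mulT hq y1 y2
    have ll := Wt.mulT hq l1 l2
    have h1 := Wt.mul hq hc0 (Wt.mul hq yy ll)
    have he : (0 : ℤ) + (-ew (k + 1) u c + ew k u c + (ew (k + 1) v c + -ew k v c)) = 2 := by
      unfold ew
      show (0 : ℤ) + (-((if k + 1 = k then 1 else 0) - (if k + 1 = (c : ℕ) then 1 else 0))
        + ((if k = k then 1 else 0) - (if k = (c : ℕ) then 1 else 0))
        + (((if k + 1 = k + 1 then 1 else 0) - (if k + 1 = (c : ℕ) then 1 else 0))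
        + -((if k = k + 1 then 1 else 0) - (if k = (c : ℕ) then 1 else 0)))) = 2
      rw [if_neg (by omega : ¬ k + 1 = k), if_pos rfl, if_pos rfl, if_neg (by omega : ¬ k = k + 1)]
      ring
    rw [he] at h1
    exact h1
  have hwT : Wt q T 2 (X u v) := by
    have h1 : Wt q (κi k * κ (k + 1)) 0 (X u v) := by
      apply Wt.comm
      rw [mul_assoc, hκ (k + 1), ← mul_assoc, hκi k, mul_assoc]
    have h2 := Wt.mulT hq h1 hw
    rw [zero_add] at h2
    exact h2
  have hkey : (q⁻¹ ^ (2 * (k + 1))) • (T * X u v) = (q⁻¹ ^ (2 * k)) • (X u v * T) := by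
    have h1 : T * X u v = q ^ (2 : ℤ) • (X u v * T) := hwT
    rw [h1, smul_smul]
    congr 1
    rw [show (2 : ℤ) = ((2 : ℕ) : ℤ) from rfl, zpow_natCast, show 2 * (k + 1) = 2 * k + 2 by ring,
      pow_add, mul_assoc, ← mul_pow, inv_mul_cancel₀ hq, one_pow, mul_one]
  have hsum : ∑ s : Fin (N + 1), (q⁻¹ ^ (2 * (s : ℕ))) •
      (X s s * F k + (if s = u then X u v * T else 0))
      = ∑ s : Fin (N + 1), (q⁻¹ ^ (2 * (s : ℕ))) •
      (F k * X s s + (if s = v then T * X u v else 0)) :=
    Finset.sum_congr rfl fun s _ => by rw [hs s]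
  have hu : ∑ s : Fin (N + 1), (q⁻¹ ^ (2 * (s : ℕ))) • (if s = u then X u v * T else (0 : R))
      = (q⁻¹ ^ (2 * k)) • (X u v * T) := by
    rw [Finset.sum_eq_single u]
    · rw [if_pos rfl]
    · intro b _ hb
      rw [if_neg hb, smul_zero]
    · intro h
      exact absurd (Finset.mem_univ u) h
  have hv : ∑ s : Fin (N + 1), (q⁻¹ ^ (2 * (s : ℕ))) • (if s = v then T * X u v else (0 : R))
      = (q⁻¹ ^ (2 * (k + 1))) • (T * X u v) := by
    rw [Finset.sum_eq_single v]
    · rw [if_pos rfl]
    · intro b _ hb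
      rw [if_neg hb, smul_zero]
    · intro h
      exact absurd (Finset.mem_univ v) h
  simp only [smul_add, Finset.sum_add_distrib] at hsum
  rw [hu, hv, hkey] at hsum
  have h5 := add_right_cancel hsum
  rw [hc1, Finset.sum_mul, Finset.mul_sum]
  calc ∑ i : Fin (N + 1), (q⁻¹ ^ (2 * (i : ℕ))) • X i i * F k
      = ∑ i : Fin (N + 1), (q⁻¹ ^ (2 * (i : ℕ))) • (X i i * F k) :=
        Finset.sum_congr rfl fun i _ => smul_mul_assoc _ _ _
    _ = ∑ i : Fin (N + 1), (q⁻¹ ^ (2 * (i : ℕ))) • (F k * X i i) := h5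
    _ = ∑ i : Fin (N + 1), F k * (q⁻¹ ^ (2 * (i : ℕ))) • X i i :=
        Finset.sum_congr rfl fun i _ => (mul_smul_comm _ _ _).symm

end

end Pool.Agent.Helper53.SQC
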